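import Pool.Agent.W960.Conv
import Pool.Agent.H528R3.FD.PolyZZ

set_option autoImplicit false

/-!
# Clearing denominators in polynomial time
-/

namespace Pool.Agent.W160.Spx

open Pool.Agent.NPC Pool.Agent.W960

theorem foldl_den_pos (l : List ℚ) : ∀ s : ℕ, 0 < s → 0 < l.foldl (fun s q => s * q.den) s := by
  induction l with
  | nil => intro s hs; simpa using hs
  | cons q l ih => intro s hs; exact ih _ (Nat.mul_pos hs q.den_pos)

theorem dens_pos (l : List ℚ) : 0 < dens l := foldl_den_pos l 1 one_pos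

theorem dvd_foldl_den (l : List ℚ) : ∀ s : ℕ, s ∣ l.foldl (fun s q => s * q.den) s := by
  induction l with
  | nil => intro s; exact dvd_rfl
  | cons q l ih => intro s; exact (Dvd.intro _ rfl).trans (ih (s * q.den))

theorem den_dvd_foldl (l : List ℚ) : ∀ s : ℕ, ∀ q ∈ l,
    q.den ∣ l.foldl (fun s q => s * q.den) s := by
  induction l with
  | nil => intro s q hq; simp at hq
  | cons r l ih =>
    intro s q hq
    rcases List.mem_cons.1 hq with h | h
    · subst h
      exact (Dvd.intro_left _ rfl).trans (dvd_foldl_den l (s * q.den))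
    · exact ih _ q h

theorem den_dvd_dens {l : List ℚ} {q : ℚ} (hq : q ∈ l) : q.den ∣ dens l := den_dvd_foldl l 1 q hq

theorem clr_spec (l : List ℚ) : (W960.clr l).length = l.length ∧
    ∀ j, (((W960.clr l).getD j 0 : ℤ) : ℚ) = (dens l : ℚ) * l.getD j 0 := by
  refine ⟨by simp [W960.clr], fun j => ?_⟩
  by_cases hj : j < l.length
  · have h1 : (W960.clr l).getD j 0 = (l[j]).num * ((dens l / (l[j]).den : ℕ) : ℤ) := by
      simp [W960.clr, List.getD_eq_getElem?_getD, hj]
    have h2 : l.getD j 0 = l[j] := by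
      simp [List.getD_eq_getElem?_getD, hj]
    rw [h1, h2]
    set q := l[j] with hq
    have h3 : q.den ∣ dens l := den_dvd_dens (List.getElem_mem hj)
    obtain ⟨c, hc⟩ := h3
    rw [hc, Nat.mul_div_cancel_left _ q.den_pos]
    push_cast
    have h4 : (q.den : ℚ) ≠ 0 := by exact_mod_cast q.den_pos.ne'
    have h5 : (q.den : ℚ) * q = q.num := by
      rw [mul_comm]
      exact Rat.mul_den_eq_num q
    rw [← h5]
    ring
  · have h1 : (W960.clr l).getD j 0 = 0 := by
      rw [List.getD_eq_default]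
      simp [W960.clr]
      omega
    have h2 : l.getD j 0 = 0 := by
      rw [List.getD_eq_default]
      omega
    rw [h1, h2]
    simp

theorem size_mul_le (m n : ℕ) : (m * n).size ≤ m.size + n.size := by
  rw [Nat.size_le, pow_add]
  exact Nat.mul_lt_mul'' (Nat.lt_size_self m) (Nat.lt_size_self n)

variable {α : Type} [TEnc α]

theorem size_den_le_sz (q : ℚ) : q.den.size + 1 ≤ sz q := by
  have h : sz q = sz (q.num, q.den) := rfl
  rw [h, sz_pair]
  have := size_le_sz q.den
  omega

theorem size_foldl_den (l : List ℚ) : ∀ s : ℕ,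
    (l.foldl (fun s q => s * q.den) s).size ≤ s.size + sz l := by
  induction l with
  | nil => intro s; simp
  | cons q l ih =>
    intro s
    rw [List.foldl_cons, sz_list_cons]
    have h1 := ih (s * q.den)
    have h2 := size_mul_le s q.den
    have h3 := size_den_le_sz q
    omega

theorem poly_dens {l : α → List ℚ} (hl : Poly l) : Poly (fun a => dens (l a)) := by
  obtain ⟨r, hr⟩ := hl.sz_le
  refine NPC.Poly.foldl (s := fun _ => 1) (F := fun _ s (q : ℚ) => s * q.den) hl (NPC.Poly.const 1)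
    (NPC.Poly.mul (NPC.Poly.fst (NPC.Poly.snd NPC.Poly.id))
      (Pool.Agent.H528R3.FD.PolyZZ.poly_den (NPC.Poly.snd (NPC.Poly.snd NPC.Poly.id))))
    (Polynomial.C 4 * r + Polynomial.C 5) ?_
  intro a k hk
  have h1 := sz_nat_le (((l a).take k).foldl (fun s q => s * q.den) 1)
  have h2 := size_foldl_den ((l a).take k) 1
  have h3 := NPC.Poly.sz_take_le (l a) k
  have h4 := hr a
  have h5 : (1 : ℕ).size = 1 := Nat.size_one
  simp only [Polynomial.eval_add, Polynomial.eval_mul, Polynomial.eval_C]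
  omega

theorem poly_clr {l : α → List ℚ} (hl : Poly l) : Poly (fun a => W960.clr (l a)) := by
  refine NPC.Poly.map (F := fun a (q : ℚ) => q.num * ((dens (l a) / q.den : ℕ) : ℤ)) hl ?_
  exact NPC.Poly.imul (Pool.Agent.H528R3.FD.PolyZZ.poly_num (NPC.Poly.snd NPC.Poly.id))
    (NPC.Poly.natCast (NPC.Poly.div ((poly_dens hl).comp (NPC.Poly.fst NPC.Poly.id))
      (Pool.Agent.H528R3.FD.PolyZZ.poly_den (NPC.Poly.snd NPC.Poly.id))))

theorem poly_eL {k j : α → ℕ} (hk : UPoly k) (hj : Poly j) :
    Poly (fun a => eL (k a) (j a)) := by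
  refine NPC.Poly.map (F := fun a i => if i = j a then (1 : ℤ) else 0) hk.range ?_
  exact NPC.Poly.ite (NPC.Poly.decide_eq (NPC.Poly.snd NPC.Poly.id) (hj.comp (NPC.Poly.fst NPC.Poly.id)))
    (NPC.Poly.const 1) (NPC.Poly.const 0)

theorem poly_smulL {c : α → ℤ} {u : α → List ℤ} (hc : Poly c) (hu : Poly u) :
    Poly (fun a => smulL (c a) (u a)) :=
  NPC.Poly.map (F := fun a x => c a * x) hu (NPC.Poly.imul (hc.comp (NPC.Poly.fst NPC.Poly.id)) (NPC.Poly.snd NPC.Poly.id))

theorem poly_singleton {β : Type} [TEnc β] {f : α → β} (hf : Poly f) :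
    Poly (fun a => [f a]) := NPC.Poly.cons hf (NPC.Poly.const [])

theorem poly_rowsH : Poly rowsH := by
  have hA : Poly (fun x : QData => x.1.1) := NPC.Poly.fst (NPC.Poly.fst NPC.Poly.id)
  have hb : Poly (fun x : QData => x.1.2) := NPC.Poly.snd (NPC.Poly.fst NPC.Poly.id)
  have hc : Poly (fun x : QData => x.2.1) := NPC.Poly.fst (NPC.Poly.snd NPC.Poly.id)
  refine NPC.Poly.append (l := fun x : QData => List.zipWith (fun r β => W960.clr (r ++ [-β])) x.1.1 x.1.2)
    (l' := fun x : QData => (List.range x.2.1.length).map fun j =>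
      smulL (-1) (eL (x.2.1.length + 1) j)) ?_ ?_
  · refine NPC.Poly.zipWith (F := fun _ (r : List ℚ) (β : ℚ) => W960.clr (r ++ [-β])) hA hb ?_
    refine poly_clr (NPC.Poly.append (NPC.Poly.fst (NPC.Poly.snd NPC.Poly.id)) (poly_singleton ?_))
    exact Pool.Agent.H528R3.FD.PolyZZ.poly_neg (NPC.Poly.snd (NPC.Poly.snd NPC.Poly.id))
  · refine NPC.Poly.map (F := fun (x : QData) j => smulL (-1) (eL (x.2.1.length + 1) j))
      (UPoly.length hc).range ?_
    refine poly_smulL (NPC.Poly.const (-1)) (poly_eL ?_ (NPC.Poly.snd NPC.Poly.id))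
    exact UPoly.add (UPoly.length (hc.comp (NPC.Poly.fst NPC.Poly.id))) (UPoly.const 1)

theorem poly_objG : Poly objG :=
  poly_clr (NPC.Poly.append (NPC.Poly.fst (NPC.Poly.snd NPC.Poly.id)) (NPC.Poly.const [0]))

theorem poly_optGetD {β : Type} [TEnc β] {o : α → Option β} {d : α → β} (ho : Poly o)
    (hd : Poly d) : Poly (fun a => (o a).getD (d a)) :=
  (NPC.Poly.optCases ho hd (h := fun _ b => b) (NPC.Poly.snd NPC.Poly.id)).congr fun a => by
    cases o a <;> rfl

theorem poly_start
    (hc : ∀ (α : Type) [TEnc α] (H : α → List (List ℤ)) (g p : α → List ℤ), Poly H → Poly g →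
      Poly p → Poly (fun a => canon (H a) (g a) (p a))) : Poly start :=
  poly_optGetD (hc _ _ _ _ poly_rowsH poly_objG
    (poly_clr (NPC.Poly.append (NPC.Poly.snd (NPC.Poly.snd NPC.Poly.id)) (NPC.Poly.const [1])))) (NPC.Poly.const [])

theorem poly_initS
    (hc : ∀ (α : Type) [TEnc α] (H : α → List (List ℤ)) (g p : α → List ℤ), Poly H → Poly g →
      Poly p → Poly (fun a => canon (H a) (g a) (p a))) : Poly initS := by
  refine NPC.Poly.pair (NPC.Poly.pair poly_rowsH poly_objG) (NPC.Poly.pair (poly_singleton (poly_start hc))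
    (poly_singleton ?_))
  refine NPC.Poly.pair (NPC.Poly.const 0) (NPC.Poly.pair (NPC.Poly.const []) (NPC.Poly.pair ?_
    (NPC.Poly.pair (NPC.Poly.const []) (NPC.Poly.const 0))))
  exact (UPoly.length poly_rowsH).range

end Pool.Agent.W160.Spx
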