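import Pool.Agent.W217.BE.Stm2

set_option autoImplicit false

namespace Pool.Agent.W160.BEREGR0

open Pool.Agent.W217.BE

theorem proj {A I M : Type} [CommRing A] [DecidableEq I] [AddCommGroup M] [Module A M]
    (D : I → Submodule A M) (hD : DirectSum.IsInternal D) (S : Set I) :
    ∃ P : M →ₗ[A] M, (∀ i ∈ S, ∀ x ∈ D i, P x = x) ∧ ∀ i, i ∉ S → ∀ x ∈ D i, P x = 0 := by
  classical
  let e := LinearEquiv.ofBijective (DirectSum.coeLinearMap D) hD
  let φ : DirectSum I (fun i => D i) →ₗ[A] M :=
    DirectSum.toModule A I M (fun i => if i ∈ S then (D i).subtype else 0)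
  have he : ∀ i (x : M) (hx : x ∈ D i), e.symm x = DirectSum.lof A I (fun i => D i) i ⟨x, hx⟩ := by
    intro i x hx
    rw [LinearEquiv.symm_apply_eq]
    exact (DirectSum.coeLinearMap_lof D i ⟨x, hx⟩).symm
  refine ⟨φ ∘ₗ e.symm.toLinearMap, fun i hi x hx => ?_, fun i hi x hx => ?_⟩
  · rw [LinearMap.comp_apply, LinearEquiv.coe_coe, he i x hx]
    show DirectSum.toModule A I M _ _ = _
    rw [DirectSum.toModule_lof, if_pos hi]
    rfl
  · rw [LinearMap.comp_apply, LinearEquiv.coe_coe, he i x hx]
    show DirectSum.toModule A I M _ _ = _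
    rw [DirectSum.toModule_lof, if_neg hi]
    rfl

theorem main : REGR0 := by
  intro A _ k M _ _ ℳ hM
  have hM2 := (DirectSum.isInternal_submodule_iff_iSupIndep_and_iSup_eq_top ℳ).1 hM
  constructor
  · rw [DirectSum.isInternal_submodule_iff_iSupIndep_and_iSup_eq_top]
    constructor
    · intro t
      obtain ⟨P, hP1, hP2⟩ := proj ℳ hM {a | a 0 = t}
      rw [Submodule.disjoint_def]
      intro x hx hx'
      have h1 : (⨆ b : Fin k → ℤ, ℳ (Fin.cons t b)) ≤ LinearMap.eqLocus P LinearMap.id := by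
        refine iSup_le fun b y hy => ?_
        rw [LinearMap.mem_eqLocus, LinearMap.id_apply]
        exact hP1 (Fin.cons t b) (Fin.cons_zero _ _) y hy
      have h2 : (⨆ t', ⨆ (_ : t' ≠ t), ⨆ b : Fin k → ℤ, ℳ (Fin.cons t' b)) ≤
          LinearMap.ker P := by
        refine iSup_le fun t' => iSup_le fun ht' => iSup_le fun b y hy => ?_
        rw [LinearMap.mem_ker]
        refine hP2 (Fin.cons t' b) ?_ y hy
        intro h
        exact ht' (((Fin.cons_zero (α := fun _ => ℤ) t' b).symm).trans h)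
      have h3 := h1 hx
      have h4 := h2 hx'
      rw [LinearMap.mem_eqLocus, LinearMap.id_apply] at h3
      rw [LinearMap.mem_ker] at h4
      rw [← h3, h4]
    · rw [eq_top_iff, ← hM2.2]
      refine iSup_le fun a => ?_
      have h1 : ℳ a ≤ ⨆ b : Fin k → ℤ, ℳ (Fin.cons (a 0) b) := by
        have h2 := le_iSup (fun b : Fin k → ℤ => ℳ (Fin.cons (a 0) b)) (Fin.tail a)
        simp only [Fin.cons_self_tail] at h2
        exact h2
      exact h1.trans (le_iSup (fun t : ℤ => ⨆ b : Fin k → ℤ, ℳ (Fin.cons t b)) (a 0))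
  · intro t
    rw [DirectSum.isInternal_submodule_iff_iSupIndep_and_iSup_eq_top]
    constructor
    · intro b
      obtain ⟨P, hP1, hP2⟩ := proj ℳ hM {Fin.cons t b}
      rw [Submodule.disjoint_def]
      intro x hx hx'
      have h2 : (⨆ b', ⨆ (_ : b' ≠ b), (ℳ (Fin.cons t b')).comap
          (⨆ b : Fin k → ℤ, ℳ (Fin.cons t b)).subtype) ≤
          (LinearMap.ker P).comap (⨆ b : Fin k → ℤ, ℳ (Fin.cons t b)).subtype := by
        refine iSup_le fun b' => iSup_le fun hb' => Submodule.comap_mono fun y hy => ?_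
        rw [LinearMap.mem_ker]
        refine hP2 (Fin.cons t b') ?_ y hy
        intro h
        exact hb' (Fin.cons_right_injective (α := fun _ => ℤ) t h)
      have h3 := hP1 _ rfl _ hx
      have h4 := h2 hx'
      rw [Submodule.mem_comap, LinearMap.mem_ker] at h4
      apply Subtype.ext
      have h5 : (⨆ b : Fin k → ℤ, ℳ (Fin.cons t b)).subtype x = 0 := by
        rw [← h3, h4]
      exact h5
    · apply Submodule.map_injective_of_injective
        (Submodule.injective_subtype (⨆ b : Fin k → ℤ, ℳ (Fin.cons t b)))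
      rw [Submodule.map_iSup, Submodule.map_top, Submodule.range_subtype]
      refine iSup_congr fun b => ?_
      rw [Submodule.map_comap_subtype]
      exact inf_eq_right.2 (le_iSup (fun b : Fin k → ℤ => ℳ (Fin.cons t b)) b)

end Pool.Agent.W160.BEREGR0
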