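/-
The guard game behind the positive answer to MP_6cb088_co (eternal domination number =
independence number < clique covering number for a triangle-free graph).

Abstract setting: a finite type `X` of 64 points, a finite type `Fn` of functions, `val f x : Bool`.
Second side vertices: `Option (X × Bool)`; `none` is adjacent to all functions and `some (x, v)` is
adjacent to the `f` with `val f x = v` and to `some (x, !v)`.
A state is `(A, R)`: `A` the vacated functions, `R` the occupied second side vertices.
-/
import Mathlib

set_option autoImplicit false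
set_option linter.unusedSectionVars false

namespace Pool.Agent.W160.Etern

open Finset

variable {X Fn : Type} [Fintype X] [DecidableEq X] [Fintype Fn] [DecidableEq Fn]

/-- adjacency between a function and a second side vertex -/
def Adj (val : Fn → X → Bool) (f : Fn) : Option (X × Bool) → Prop
  | none => True
  | some y => val f y.1 = y.2

instance (val : Fn → X → Bool) (f : Fn) (r : Option (X × Bool)) : Decidable (Adj val f r) :=
  match r with
  | none => isTrue trivial
  | some y => inferInstanceAs (Decidable (val f y.1 = y.2))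

@[simp] lemma adj_none (val : Fn → X → Bool) (f : Fn) : Adj val f none ↔ True := Iff.rfl
@[simp] lemma adj_some (val : Fn → X → Bool) (f : Fn) (x : X) (v : Bool) :
    Adj val f (some (x, v)) ↔ val f x = v := Iff.rfl

/-- members of `S` with value `v` at `x` -/
def cl (val : Fn → X → Bool) (S : Finset Fn) (x : X) (v : Bool) : Finset Fn :=
  S.filter (fun f => val f x = v)

lemma mem_cl {val : Fn → X → Bool} {S : Finset Fn} {x : X} {v : Bool} {f : Fn} :
    f ∈ cl val S x v ↔ f ∈ S ∧ val f x = v := by simp [cl]

lemma mem_clu {val : Fn → X → Bool} {x : X} {v : Bool} {f : Fn} :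
    f ∈ cl val univ x v ↔ val f x = v := by simp [cl]

/-- guards of `R` that see a member of `P` -/
def nb (val : Fn → X → Bool) (R : Finset (Option (X × Bool))) (P : Finset Fn) :
    Finset (Option (X × Bool)) :=
  R.filter (fun r => ∃ f ∈ P, Adj val f r)

lemma mem_nb {val : Fn → X → Bool} {R : Finset (Option (X × Bool))} {P : Finset Fn}
    {r : Option (X × Bool)} : r ∈ nb val R P ↔ r ∈ R ∧ ∃ f ∈ P, Adj val f r := by simp [nb]

def Hall (val : Fn → X → Bool) (A : Finset Fn) (R : Finset (Option (X × Bool))) : Prop :=
  ∀ P ⊆ A, P.card ≤ (nb val R P).card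

/-- double pairs -/
def dbl (R : Finset (Option (X × Bool))) : Finset X :=
  univ.filter (fun x => ∀ v : Bool, some (x, v) ∈ R)

lemma mem_dbl {R : Finset (Option (X × Bool))} {x : X} :
    x ∈ dbl R ↔ ∀ v : Bool, some (x, v) ∈ R := by simp [dbl]

/-- the counting facts -/
structure Facts (val : Fn → X → Bool) : Prop where
  hX : Fintype.card X = 64
  h1 : ∀ x v, (cl val univ x v).card = 64
  h2 : ∀ x y v w, x ≠ y → (cl val (cl val univ x v) y w).card = 32
  h3 : ∀ x y z u v w, x ≠ y → x ≠ z → y ≠ z →
    (cl val (cl val (cl val univ x u) y v) z w).card ≤ 16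

structure Good (val : Fn → X → Bool) (A : Finset Fn) (R : Finset (Option (X × Bool))) : Prop where
  card : A.card = R.card
  hall : Hall val A R
  loc : ∀ x v, some (x, v) ∉ R → 1 ≤ (cl val Aᶜ x v).card
  dd : (dbl R).card ≤ 24 ∨ ((dbl R).card = 25 ∧ ∀ x, x ∉ dbl R → ∀ v,
    2 ≤ (cl val A x v).card ∧ 1 ≤ (cl val Aᶜ x v).card ∧
      ((∀ w, some (x, w) ∉ R) → 2 ≤ (cl val Aᶜ x v).card))

section counting

variable {val : Fn → X → Bool}

lemma cl_mono {S T : Finset Fn} (h : S ⊆ T) (x : X) (v : Bool) : cl val S x v ⊆ cl val T x v :=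
  filter_subset_filter _ h

lemma cl_sub (S : Finset Fn) (x : X) (v : Bool) : cl val S x v ⊆ S := filter_subset _ _

lemma cl_split (S : Finset Fn) (x : X) (v : Bool) :
    (cl val S x v).card + (cl val S x (!v)).card = S.card := by
  have h := Finset.card_filter_add_card_filter_not (s := S) (fun f => val f x = v)
  have h2 : S.filter (fun f => ¬ val f x = v) = cl val S x (!v) := by
    unfold cl
    apply Finset.filter_congr
    intro f _
    cases val f x <;> cases v <;> simp
  rw [h2] at h
  exact h

lemma half_gen (S : Finset Fn) (x : X) (σ : Fn → Fn) (hinv : ∀ f, σ (σ f) = f)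
    (hS : ∀ f ∈ S, σ f ∈ S) (h : ∀ f, val (σ f) x = ! val f x) (v : Bool) :
    2 * (cl val S x v).card = S.card := by
  have h1 := cl_split (val := val) S x v
  have h2 : (cl val S x v).card = (cl val S x (!v)).card := by
    apply card_nbij' σ σ
    · intro f hf
      obtain ⟨hf1, hf2⟩ := mem_cl.1 hf
      exact mem_cl.2 ⟨hS f hf1, by rw [h, hf2]⟩
    · intro f hf
      obtain ⟨hf1, hf2⟩ := mem_cl.1 hf
      exact mem_cl.2 ⟨hS f hf1, by rw [h, hf2, Bool.not_not]⟩
    · intro f _
      exact hinv f
    · intro f _
      exact hinv f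
  omega

lemma half_univ (x : X) (σ : Fn → Fn) (hinv : ∀ f, σ (σ f) = f)
    (h : ∀ f, val (σ f) x = ! val f x) (v : Bool) :
    2 * (cl val univ x v).card = Fintype.card Fn := by
  rw [half_gen univ x σ hinv (fun _ _ => mem_univ _) h v, card_univ]

lemma cl_compl (F : Facts val) (A : Finset Fn) (x : X) (v : Bool) :
    (cl val A x v).card + (cl val Aᶜ x v).card = 64 := by
  rw [← F.h1 x v, ← card_union_of_disjoint]
  · congr 1
    ext f
    simp only [mem_union, mem_cl, mem_compl, mem_univ, true_and]
    tauto
  · rw [Finset.disjoint_left]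
    intro f hf hf2
    rw [mem_cl] at hf hf2
    exact (mem_compl.1 hf2.1) hf.1

lemma cl_pair (F : Facts val) (A : Finset Fn) {x y : X} (h : x ≠ y) (v w : Bool) :
    (cl val A x v).card + (cl val A y w).card ≤ A.card + 32 := by
  rw [← Finset.card_union_add_card_inter]
  have h1 : (cl val A x v ∪ cl val A y w).card ≤ A.card :=
    card_le_card (union_subset (cl_sub _ _ _) (cl_sub _ _ _))
  have h2 : (cl val A x v ∩ cl val A y w).card ≤ 32 := by
    rw [← F.h2 x y v w h]
    apply card_le_card
    intro f
    simp only [mem_inter, mem_cl, mem_univ, true_and]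
    tauto
  omega

lemma cl_univ_total (F : Facts val) (x : X) : Fintype.card Fn = 128 := by
  have := cl_split (val := val) univ x true
  rw [F.h1, F.h1, Finset.card_univ] at this
  omega


/-- choice lemma -/
lemma choose (F : Facts val) {A S : Finset Fn} (hA : A.card ≤ 90) (Q : X → Prop)
    (hS : ∃ f ∈ S, f ∉ A) (hS2 : ∀ y, Q y → ∀ w, 29 ≤ (cl val S y w).card) :
    ∃ c ∈ S, c ∉ A ∧ ∀ y, Q y → 3 ≤ (cl val Aᶜ y (val c y)).card := by
  by_cases h : ∀ y, Q y → ∀ w, 3 ≤ (cl val Aᶜ y w).card
  · obtain ⟨f, hf, hfA⟩ := hS
    exact ⟨f, hf, hfA, fun y hy => h y hy _⟩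
  · push Not at h
    obtain ⟨y, hy, w, hw⟩ := h
    have e1 := cl_compl F A y w
    have e2 := cl_split (val := val) A y w
    have e3 := hS2 y hy (!w)
    have : ∃ c ∈ cl val S y (!w), c ∉ cl val A y (!w) := by
      by_contra hc
      push Not at hc
      have : (cl val S y (!w)).card ≤ (cl val A y (!w)).card := card_le_card hc
      omega
    obtain ⟨c, hc, hcA⟩ := this
    rw [mem_cl] at hc
    rw [mem_cl] at hcA
    refine ⟨c, hc.1, fun h => hcA ⟨h, hc.2⟩, ?_⟩
    intro y' hy'
    by_contra hlt
    by_cases hyy : y = y'
    · subst hyy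
      have e4 := cl_compl F A y (!w)
      rw [hc.2] at hlt
      omega
    · have e4 := cl_compl F A y' (val c y')
      have e5 := cl_pair F A hyy w (val c y')
      omega

end counting

section dbl

variable {val : Fn → X → Bool}

lemma cardR_le (hX : Fintype.card X = 64) (R : Finset (Option (X × Bool))) :
    R.card ≤ 65 + (dbl R).card := by
  classical
  set B0 : Finset X := univ.filter (fun x => some (x, false) ∈ R) with hB0
  set B1 : Finset X := univ.filter (fun x => some (x, true) ∈ R) with hB1
  have h1 : R ⊆ (B0.image (fun x => some (x, false)) ∪ B1.image (fun x => some (x, true))) ∪ {none} := by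
    intro r hr
    rcases r with _ | ⟨x, v⟩
    · simp
    · cases v
      · simp [hB0, hr]
      · simp [hB1, hr]
  have h2 := card_le_card h1
  have h3 : ((B0.image (fun x => some (x, false)) ∪ B1.image (fun x => some (x, true))) ∪
      {(none : Option (X × Bool))}).card ≤ B0.card + B1.card + 1 := by
    refine (card_union_le _ _).trans ?_
    have := card_union_le (B0.image (fun x => some (x, false))) (B1.image (fun x => some (x, true)))
    have h4 := card_image_le (s := B0) (f := fun x => some (x, false))
    have h5 := card_image_le (s := B1) (f := fun x => some (x, true))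
    simp only [card_singleton]
    omega
  have h4 := card_union_add_card_inter B0 B1
  have h5 : (B0 ∪ B1).card ≤ 64 := by
    rw [← hX]
    exact card_le_univ _
  have h6 : B0 ∩ B1 = dbl R := by
    ext x
    simp [hB0, hB1, mem_dbl]
  rw [h6] at h4
  omega

lemma two_dbl_le (R : Finset (Option (X × Bool))) : 2 * (dbl R).card ≤ R.card := by
  have : ((dbl R ×ˢ (univ : Finset Bool)).map ⟨some, Option.some_injective _⟩) ⊆ R := by
    intro r hr
    simp only [mem_map, mem_product, mem_univ, and_true, Function.Embedding.coeFn_mk,
      Prod.exists] at hr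
    obtain ⟨x, v, hx, rfl⟩ := hr
    exact mem_dbl.1 hx v
  have := card_le_card this
  simp only [card_map, card_product, card_univ, Fintype.card_bool] at this
  omega

lemma two_dbl_lt {R : Finset (Option (X × Bool))} {x : X} {v : Bool} (hx : some (x, v) ∈ R)
    (hx2 : x ∉ dbl R) : 2 * (dbl R).card + 1 ≤ R.card := by
  have : insert (some (x, v)) ((dbl R ×ˢ (univ : Finset Bool)).map
      ⟨some, Option.some_injective _⟩) ⊆ R := by
    intro r hr
    simp only [mem_insert, mem_map, mem_product, mem_univ, and_true, Function.Embedding.coeFn_mk,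
      Prod.exists] at hr
    rcases hr with rfl | ⟨x, v, hx, rfl⟩
    · exact hx
    · exact mem_dbl.1 hx v
  have := card_le_card this
  rw [card_insert_of_notMem] at this
  · simp only [card_map, card_product, card_univ, Fintype.card_bool] at this
    omega
  · simp [hx2]

/-- a nonempty `P` sees at least one guard in each pair of `E` if ... -/
lemma nb_ge {R : Finset (Option (X × Bool))} {P : Finset Fn} {f : Fn} (hf : f ∈ P) (E : Finset X)
    (hE : ∀ x ∈ E, some (x, val f x) ∈ R) : E.card ≤ (nb val R P).card := by
  apply card_le_card_of_injOn (fun x => some (x, val f x))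
  · intro x hx
    exact mem_nb.2 ⟨hE x hx, f, hf, rfl⟩
  · intro x _ y _ h
    simp only [Option.some.injEq, Prod.mk.injEq] at h
    exact h.1

end dbl

section hall

variable {val : Fn → X → Bool}

lemma hall_insert {A : Finset Fn} {R : Finset (Option (X × Bool))} (h : Hall val A R)
    {c : Fn} {r : Option (X × Bool)} (hr : r ∉ R) (hcr : Adj val c r) :
    Hall val (insert c A) (insert r R) := by
  intro P hP
  have h1 : P.erase c ⊆ A := by
    intro f hf
    rw [mem_erase] at hf
    rcases mem_insert.1 (hP hf.2) with h | h
    · exact absurd h hf.1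
    · exact h
  have h2 := h _ h1
  by_cases hc : c ∈ P
  · have h3 : insert r (nb val R (P.erase c)) ⊆ nb val (insert r R) P := by
      intro s hs
      rcases mem_insert.1 hs with rfl | hs
      · exact mem_nb.2 ⟨mem_insert_self _ _, c, hc, hcr⟩
      · obtain ⟨hs1, f, hf, hfs⟩ := mem_nb.1 hs
        exact mem_nb.2 ⟨mem_insert_of_mem hs1, f, (mem_erase.1 hf).2, hfs⟩
    have h4 := card_le_card h3
    rw [card_insert_of_notMem (fun hh => hr (mem_nb.1 hh).1)] at h4
    have h5 := card_erase_of_mem hc
    have h6 : 0 < P.card := card_pos.2 ⟨c, hc⟩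
    omega
  · rw [erase_eq_of_notMem hc] at h2
    refine h2.trans (card_le_card ?_)
    intro s hs
    obtain ⟨hs1, f, hf, hfs⟩ := mem_nb.1 hs
    exact mem_nb.2 ⟨mem_insert_of_mem hs1, f, hf, hfs⟩

lemma hall_match {A : Finset Fn} {R : Finset (Option (X × Bool))} (h : Hall val A R)
    {a : Fn} (ha : a ∈ A) :
    ∃ b ∈ R, Adj val a b ∧ Hall val (A.erase a) (R.erase b) := by
  classical
  let t : {f // f ∈ A} → Finset (Option (X × Bool)) := fun f => R.filter (fun r => Adj val f.1 r)
  have key : ∀ s : Finset {f // f ∈ A}, s.card ≤ (s.biUnion t).card := by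
    intro s
    have h1 := h (s.map ⟨Subtype.val, Subtype.val_injective⟩) (by
      intro f hf
      rw [mem_map] at hf
      obtain ⟨g, _, rfl⟩ := hf
      exact g.2)
    rw [card_map] at h1
    refine h1.trans (card_le_card ?_)
    intro r hr
    obtain ⟨hr1, f, hf, hfr⟩ := mem_nb.1 hr
    rw [mem_map] at hf
    obtain ⟨g, hg, rfl⟩ := hf
    rw [mem_biUnion]
    exact ⟨g, hg, by simp only [t, mem_filter]; exact ⟨hr1, hfr⟩⟩
  obtain ⟨φ, hφ, hφ2⟩ := (Finset.all_card_le_biUnion_card_iff_exists_injective t).1 key
  have hφ3 : ∀ f : {f // f ∈ A}, φ f ∈ R ∧ Adj val f.1 (φ f) := by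
    intro f
    have := hφ2 f
    simp only [t, mem_filter] at this
    exact this
  refine ⟨φ ⟨a, ha⟩, (hφ3 _).1, (hφ3 _).2, ?_⟩
  intro P hP
  have hPA : ∀ f ∈ P, f ∈ A := fun f hf => (mem_erase.1 (hP hf)).2
  have hPa : ∀ f ∈ P, f ≠ a := fun f hf => (mem_erase.1 (hP hf)).1
  rw [← card_attach]
  apply card_le_card_of_injOn (fun f : {f // f ∈ P} => φ ⟨f.1, hPA f.1 f.2⟩)
  · intro f _
    refine mem_nb.2 ⟨mem_erase.2 ⟨?_, (hφ3 _).1⟩, f.1, f.2, (hφ3 _).2⟩
    intro he
    have := hφ he
    simp only [Subtype.mk.injEq] at this
    exact hPa f.1 f.2 this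
  · intro f _ g _ he
    have := hφ he
    simp only [Subtype.mk.injEq] at this
    exact Subtype.ext this

end hall

section unan

variable {val : Fn → X → Bool}

/-- points where `P` is unanimous -/
def unan (val : Fn → X → Bool) (P : Finset Fn) : Finset X :=
  univ.filter (fun x => ∃ v : Bool, ∀ f ∈ P, val f x = v)

lemma mem_unan {P : Finset Fn} {x : X} : x ∈ unan val P ↔ ∃ v : Bool, ∀ f ∈ P, val f x = v := by
  simp [unan]

lemma unan2 (F : Facts val) {P : Finset Fn} (h : 2 ≤ (unan val P).card) : P.card ≤ 32 := by
  obtain ⟨x, hx, y, hy, hxy⟩ := one_lt_card.1 h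
  obtain ⟨v, hv⟩ := mem_unan.1 hx
  obtain ⟨w, hw⟩ := mem_unan.1 hy
  rw [← F.h2 x y v w hxy]
  apply card_le_card
  intro f hf
  rw [mem_cl, mem_cl]
  exact ⟨⟨mem_univ _, hv f hf⟩, hw f hf⟩

lemma unan3 (F : Facts val) {P : Finset Fn} (h : 3 ≤ (unan val P).card) : P.card ≤ 16 := by
  obtain ⟨x, hx, y, hy, z, hz, hxy, hxz, hyz⟩ := two_lt_card.1 h
  obtain ⟨u, hu⟩ := mem_unan.1 hx
  obtain ⟨v, hv⟩ := mem_unan.1 hy
  obtain ⟨w, hw⟩ := mem_unan.1 hz
  refine le_trans (card_le_card ?_) (F.h3 x y z u v w hxy hxz hyz)
  intro f hf
  rw [mem_cl, mem_cl, mem_cl]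
  exact ⟨⟨⟨mem_univ _, hu f hf⟩, hv f hf⟩, hw f hf⟩

/-- a guard of `R` seen by no member of the nonempty `P` -/
lemma missing {R : Finset (Option (X × Bool))} {P : Finset Fn} {f : Fn} (hf : f ∈ P)
    {r : Option (X × Bool)} (hr : r ∈ R \ nb val R P) :
    ∃ y w, r = some (y, w) ∧ ∀ g ∈ P, val g y = !w := by
  rw [mem_sdiff] at hr
  rcases r with _ | ⟨y, w⟩
  · exact absurd (mem_nb.2 ⟨hr.1, f, hf, trivial⟩) hr.2
  · refine ⟨y, w, rfl, ?_⟩
    intro g hg
    by_contra hne
    have : val g y = w := by
      revert hne
      cases val g y <;> cases w <;> simp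
    exact hr.2 (mem_nb.2 ⟨hr.1, g, hg, this⟩)

/-- the missing guards sit at different points of unanimity -/
lemma missing_card {R : Finset (Option (X × Bool))} {P : Finset Fn} {f : Fn} (hf : f ∈ P)
    (E : Finset X) (hE : ∀ y w, some (y, w) ∈ R → (∀ g ∈ P, val g y = !w) → y ∈ E) :
    (R \ nb val R P).card ≤ E.card := by
  have hx : ∀ r : Option (X × Bool), r ∈ R \ nb val R P → ∃ y ∈ E, ∃ w, r = some (y, w) ∧
      ∀ g ∈ P, val g y = !w := by
    intro r hr
    obtain ⟨y, w, rfl, hw⟩ := missing hf hr
    exact ⟨y, hE y w (mem_sdiff.1 hr).1 hw, w, rfl, hw⟩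
  have key : R \ nb val R P ⊆ E.image (fun y => some (y, ! (val f y))) := by
    intro r hr
    obtain ⟨y, hy, w, rfl, hw⟩ := hx r hr
    rw [mem_image]
    exact ⟨y, hy, by rw [hw f hf]; simp⟩
  exact (card_le_card key).trans card_image_le

end unan

section attackfn

variable {val : Fn → X → Bool}

lemma dbl_mono {R S : Finset (Option (X × Bool))} (h : R ⊆ S) : dbl R ⊆ dbl S := by
  intro x hx
  rw [mem_dbl] at *
  exact fun v => h (hx v)

lemma cardA_le (F : Facts val) {A : Finset Fn} {R : Finset (Option (X × Bool))}
    (G : Good val A R) : A.card ≤ 90 := by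
  have h1 := cardR_le F.hX R
  have h2 := G.card
  rcases G.dd with h | ⟨h, _⟩ <;> omega

lemma good_erase {A : Finset Fn} {R : Finset (Option (X × Bool))} (G : Good val A R)
    {a : Fn} (ha : a ∈ A) {b : Option (X × Bool)} (hb : b ∈ R) (hab : Adj val a b)
    (hH : Hall val (A.erase a) (R.erase b)) (hd : (dbl (R.erase b)).card ≤ 24) :
    Good val (A.erase a) (R.erase b) := by
  refine ⟨?_, hH, ?_, Or.inl hd⟩
  · rw [card_erase_of_mem ha, card_erase_of_mem hb, G.card]
  · intro x v hx
    by_cases hxb : some (x, v) = b
    · subst hxb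
      rw [Nat.succ_le_iff, card_pos]
      exact ⟨a, mem_cl.2 ⟨by simp, hab⟩⟩
    · have : some (x, v) ∉ R := fun h => hx (mem_erase.2 ⟨hxb, h⟩)
      refine (G.loc x v this).trans (card_le_card (cl_mono ?_ _ _))
      rw [compl_subset_compl]
      exact erase_subset _ _

theorem attack_fn (F : Facts val) {A : Finset Fn} {R : Finset (Option (X × Bool))}
    (G : Good val A R) {a : Fn} (ha : a ∈ A) :
    ∃ b ∈ R, Adj val a b ∧ Good val (A.erase a) (R.erase b) := by
  rcases G.dd with hd | ⟨hd, hN⟩
  · obtain ⟨b, hb, hab, hH⟩ := hall_match G.hall ha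
    exact ⟨b, hb, hab, good_erase G ha hb hab hH
      ((card_le_card (dbl_mono (erase_subset _ _))).trans hd)⟩
  · by_cases hT : ∃ P ⊆ A.erase a, P.Nonempty ∧ (nb val R P).card = P.card
    · obtain ⟨P, hPA, ⟨f, hf⟩, hP⟩ := hT
      have e1 : (dbl R).card ≤ (nb val R P).card :=
        nb_ge hf _ (fun x hx => mem_dbl.1 hx _)
      have e2 := two_dbl_le R
      have e3 := G.card
      have e4 : (R \ nb val R P).card + (nb val R P).card = R.card :=
        card_sdiff_add_card_eq_card (filter_subset _ _)
      have e5 : (R \ nb val R P).card ≤ (unan val P).card :=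
        missing_card hf _ (fun y w _ h => mem_unan.2 ⟨_, h⟩)
      have e6 : P.card ≤ (A.erase a).card := card_le_card hPA
      rw [card_erase_of_mem ha] at e6
      have e7 : 0 < A.card := card_pos.2 ⟨a, ha⟩
      have e8 : (R \ nb val R P).card = 1 := by
        by_cases h3 : 3 ≤ (unan val P).card
        · have := unan3 F h3
          omega
        · by_cases h2 : 2 ≤ (unan val P).card
          · have := unan2 F h2
            omega
          · omega
      have e9 : P = A.erase a := by
        apply eq_of_subset_of_card_le hPA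
        rw [card_erase_of_mem ha]
        omega
      obtain ⟨b, hb⟩ := card_eq_one.1 e8
      have hb1 : b ∈ R \ nb val R P := by rw [hb]; exact mem_singleton_self _
      obtain ⟨y, w, rfl, hw⟩ := missing hf hb1
      rw [mem_sdiff] at hb1
      have hab : Adj val a (some (y, w)) := by
        by_contra hab
        have h1 := G.hall A (Subset.refl _)
        have h2 : nb val R A ⊆ R.erase (some (y, w)) := by
          intro r hr
          obtain ⟨hr1, g, hg, hgr⟩ := mem_nb.1 hr
          rw [mem_erase]
          refine ⟨?_, hr1⟩
          rintro rfl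
          by_cases hga : g = a
          · subst hga
            exact hab hgr
          · have : g ∈ P := by rw [e9]; exact mem_erase.2 ⟨hga, hg⟩
            exact hb1.2 (mem_nb.2 ⟨hr1, g, this, hgr⟩)
        have h3 := card_le_card h2
        rw [card_erase_of_mem hb1.1] at h3
        have h4 : 0 < R.card := card_pos.2 ⟨_, hb1.1⟩
        omega
      have hy : y ∈ dbl R := by
        by_contra hy
        obtain ⟨h1, _⟩ := hN y hy w
        have h2 : cl val A y w ⊆ {a} := by
          intro g hg
          obtain ⟨hg1, hg2⟩ := mem_cl.1 hg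
          rw [mem_singleton]
          by_contra hga
          have : g ∈ P := by rw [e9]; exact mem_erase.2 ⟨hga, hg1⟩
          exact hb1.2 (mem_nb.2 ⟨hb1.1, g, this, hg2⟩)
        have h3 := card_le_card h2
        rw [card_singleton] at h3
        omega
      refine ⟨some (y, w), hb1.1, hab, good_erase G ha hb1.1 hab ?_ ?_⟩
      · intro P' hP'
        refine (G.hall P' (hP'.trans (erase_subset _ _))).trans (card_le_card ?_)
        intro r hr
        obtain ⟨hr1, g, hg, hgr⟩ := mem_nb.1 hr
        refine mem_nb.2 ⟨mem_erase.2 ⟨?_, hr1⟩, g, hg, hgr⟩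
        rintro rfl
        have : g ∈ P := by rw [e9]; exact hP' hg
        exact hb1.2 (mem_nb.2 ⟨hb1.1, g, this, hgr⟩)
      · have : dbl (R.erase (some (y, w))) ⊆ (dbl R).erase y := by
          intro x hx
          rw [mem_erase]
          refine ⟨?_, dbl_mono (erase_subset _ _) hx⟩
          rintro rfl
          have := mem_dbl.1 hx w
          simp at this
        have := card_le_card this
        rw [card_erase_of_mem hy] at this
        omega
    · push Not at hT
      have hne : (dbl R).Nonempty := card_pos.1 (by omega)
      obtain ⟨y, hy⟩ := hne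
      have hb := mem_dbl.1 hy (val a y)
      refine ⟨some (y, val a y), hb, rfl, good_erase G ha hb rfl ?_ ?_⟩
      · intro P hP
        rcases P.eq_empty_or_nonempty with rfl | hPn
        · simp
        · have h1 := hT P hP hPn
          have h2 := G.hall P (hP.trans (erase_subset _ _))
          have h3 : (nb val R P).erase (some (y, val a y)) ⊆
              nb val (R.erase (some (y, val a y))) P := by
            intro r hr
            obtain ⟨hr1, hr2⟩ := mem_erase.1 hr
            obtain ⟨hr3, hr4⟩ := mem_nb.1 hr2
            exact mem_nb.2 ⟨mem_erase.2 ⟨hr1, hr3⟩, hr4⟩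
          have h4 := card_le_card h3
          have h5 := pred_card_le_card_erase (s := nb val R P) (a := some (y, val a y))
          omega
      · have : dbl (R.erase (some (y, val a y))) ⊆ (dbl R).erase y := by
          intro x hx
          rw [mem_erase]
          refine ⟨?_, dbl_mono (erase_subset _ _) hx⟩
          rintro rfl
          have := mem_dbl.1 hx (val a x)
          simp at this
        have := card_le_card this
        rw [card_erase_of_mem hy] at this
        omega

end attackfn

section attackpt

variable {val : Fn → X → Bool}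

lemma compl_insert_card (A : Finset Fn) (c : Fn) (x : X) (v : Bool) :
    (cl val Aᶜ x v).card ≤ (cl val (insert c A)ᶜ x v).card + (if val c x = v then 1 else 0) := by
  by_cases h : val c x = v
  · rw [if_pos h]
    have : (cl val Aᶜ x v).erase c ⊆ cl val (insert c A)ᶜ x v := by
      intro f hf
      obtain ⟨hf1, hf2⟩ := mem_erase.1 hf
      obtain ⟨hf3, hf4⟩ := mem_cl.1 hf2
      refine mem_cl.2 ⟨?_, hf4⟩
      rw [mem_compl] at hf3 ⊢
      rw [mem_insert]
      tauto
    have h1 := card_le_card this
    have h2 := pred_card_le_card_erase (s := cl val Aᶜ x v) (a := c)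
    omega
  · rw [if_neg h]
    apply card_le_card
    intro f hf
    obtain ⟨hf3, hf4⟩ := mem_cl.1 hf
    refine mem_cl.2 ⟨?_, hf4⟩
    rw [mem_compl] at hf3 ⊢
    rw [mem_insert]
    rintro (rfl | h')
    · exact h hf4
    · exact hf3 h'

lemma loc_insert {A : Finset Fn} {c : Fn} {y : X}
    (hc : 3 ≤ (cl val Aᶜ y (val c y)).card) (w : Bool) (h1 : 1 ≤ (cl val Aᶜ y w).card) :
    1 ≤ (cl val (insert c A)ᶜ y w).card ∧
    (2 ≤ (cl val Aᶜ y w).card → 2 ≤ (cl val (insert c A)ᶜ y w).card) := by
  have h2 := compl_insert_card (val := val) A c y w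
  by_cases h : val c y = w
  · rw [if_pos h] at h2
    rw [h] at hc
    omega
  · rw [if_neg h] at h2
    omega

lemma bool_ne {a b : Bool} (h : a ≠ b) : a = !b := by
  revert h
  cases a <;> cases b <;> simp

/-- attack on the extra vertex -/
theorem attack_none (F : Facts val) {A : Finset Fn} {R : Finset (Option (X × Bool))}
    (G : Good val A R) (hr : none ∉ R) :
    ∃ c, c ∉ A ∧ Good val (insert c A) (insert none R) := by
  have hA := cardA_le F G
  have hne : Nonempty X := Fintype.card_pos_iff.1 (by rw [F.hX]; norm_num)
  have hcard := cl_univ_total F (Classical.arbitrary X)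
  obtain ⟨c, -, hcA, hc⟩ := choose F (S := univ) hA (fun _ => True) (by
    by_contra h
    push Not at h
    have : (univ : Finset Fn).card ≤ A.card := card_le_card h
    rw [card_univ, hcard] at this
    omega) (by
    intro y _ w
    rw [F.h1]
    norm_num)
  refine ⟨c, hcA, ?_, hall_insert G.hall hr trivial, ?_, ?_⟩
  · rw [card_insert_of_notMem hcA, card_insert_of_notMem hr, G.card]
  · intro y w hy
    have : some (y, w) ∉ R := fun h => hy (mem_insert_of_mem h)
    exact (loc_insert (hc y trivial) w (G.loc y w this)).1
  · have hd : dbl (insert none R) = dbl R := by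
      ext y
      simp [mem_dbl]
    rw [hd]
    rcases G.dd with h | ⟨h, hN⟩
    · exact Or.inl h
    · right
      refine ⟨h, ?_⟩
      intro y hy w
      obtain ⟨h1, h2, h3⟩ := hN y hy w
      have h4 := loc_insert (hc y trivial) w h2
      refine ⟨h1.trans (card_le_card (cl_mono (subset_insert _ _) _ _)), h4.1, ?_⟩
      intro h5
      apply h4.2
      apply h3
      intro w' hw'
      exact h5 w' (mem_insert_of_mem hw')

/-- attack on an empty pair -/
theorem attack_empty (F : Facts val) {A : Finset Fn} {R : Finset (Option (X × Bool))}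
    (G : Good val A R) {x : X} {v : Bool} (hr : some (x, v) ∉ R) (hr2 : some (x, !v) ∉ R) :
    ∃ c, c ∉ A ∧ val c x = v ∧ Good val (insert c A) (insert (some (x, v)) R) := by
  have hA := cardA_le F G
  obtain ⟨c, hcx, hcA, hc⟩ := choose F (S := cl val univ x v) hA (fun y => x ≠ y) (by
    have := G.loc x v hr
    rw [Nat.succ_le_iff, card_pos] at this
    obtain ⟨f, hf⟩ := this
    obtain ⟨hf1, hf2⟩ := mem_cl.1 hf
    exact ⟨f, mem_cl.2 ⟨mem_univ _, hf2⟩, mem_compl.1 hf1⟩) (by
    intro y hy w
    rw [F.h2 x y v w hy]
    norm_num)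
  have hcv : val c x = v := (mem_cl.1 hcx).2
  refine ⟨c, hcA, hcv, ?_, hall_insert G.hall hr hcv, ?_, ?_⟩
  · rw [card_insert_of_notMem hcA, card_insert_of_notMem hr, G.card]
  · intro y w hy
    have h1 : some (y, w) ∉ R := fun h => hy (mem_insert_of_mem h)
    by_cases hxy : x = y
    · subst hxy
      have h2 : w ≠ v := by
        rintro rfl
        exact hy (mem_insert_self _ _)
      have h3 := compl_insert_card (val := val) A c x w
      rw [if_neg (by rw [hcv]; exact Ne.symm h2)] at h3
      exact (G.loc x w h1).trans h3
    · exact (loc_insert (hc y hxy) w (G.loc y w h1)).1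
  · have hd : dbl (insert (some (x, v)) R) = dbl R := by
      ext y
      rw [mem_dbl, mem_dbl]
      constructor
      · intro h
        have hyx : y ≠ x := by
          rintro rfl
          have := h (!v)
          rw [mem_insert] at this
          rcases this with h' | h'
          · simp at h'
          · exact hr2 h'
        intro w
        have := h w
        rw [mem_insert] at this
        rcases this with h' | h'
        · simp only [Option.some.injEq, Prod.mk.injEq] at h'
          exact absurd h'.1 hyx
        · exact h'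
      · intro h w
        exact mem_insert_of_mem (h w)
    rw [hd]
    rcases G.dd with h | ⟨h, hN⟩
    · exact Or.inl h
    · right
      refine ⟨h, ?_⟩
      intro y hy w
      obtain ⟨h1, h2, h3⟩ := hN y hy w
      refine ⟨h1.trans (card_le_card (cl_mono (subset_insert _ _) _ _)), ?_⟩
      by_cases hxy : x = y
      · subst hxy
        have h4 : 2 ≤ (cl val Aᶜ x w).card := by
          apply h3
          intro w'
          by_cases hw' : w' = v
          · subst hw'
            exact hr
          · rw [bool_ne hw']
            exact hr2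
        have h5 := compl_insert_card (val := val) A c x w
        constructor
        · split_ifs at h5 <;> omega
        · intro h6
          exact absurd (mem_insert_self _ _) (h6 v)
      · have h4 := loc_insert (hc y hxy) w h2
        refine ⟨h4.1, ?_⟩
        intro h5
        apply h4.2
        apply h3
        intro w' hw'
        exact h5 w' (mem_insert_of_mem hw')

lemma hall_fail (F : Facts val) {A : Finset Fn} {R : Finset (Option (X × Bool))}
    (G : Good val A R) {x : X} {v : Bool} (hr : some (x, v) ∉ R) (hr2 : some (x, !v) ∈ R)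
    (hd : 24 ≤ (dbl R).card) (hH : ¬ Hall val A (insert (some (x, v)) (R.erase (some (x, !v))))) :
    ∀ f ∈ A, val f x = !v := by
  unfold Hall at hH
  push Not at hH
  obtain ⟨P, hPA, hP⟩ := hH
  obtain ⟨f, hf⟩ := card_pos.1 (by omega : 0 < P.card)
  have hx : x ∉ dbl R := fun h => hr (mem_dbl.1 h v)
  have h1 := G.hall P hPA
  have h2 : (nb val R P).erase (some (x, !v)) ⊆
      nb val (insert (some (x, v)) (R.erase (some (x, !v)))) P := by
    intro r hr
    obtain ⟨hr1, hr2⟩ := mem_erase.1 hr
    obtain ⟨hr3, hr4⟩ := mem_nb.1 hr2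
    exact mem_nb.2 ⟨mem_insert_of_mem (mem_erase.2 ⟨hr1, hr3⟩), hr4⟩
  have h3 := card_le_card h2
  have h4 := pred_card_le_card_erase (s := nb val R P) (a := some (x, !v))
  have h5 : ∀ g ∈ P, val g x = !v := by
    intro g hg
    apply bool_ne
    intro hgv
    have h6 : insert (some (x, v)) ((nb val R P).erase (some (x, !v))) ⊆
        nb val (insert (some (x, v)) (R.erase (some (x, !v)))) P := by
      apply insert_subset
      · exact mem_nb.2 ⟨mem_insert_self _ _, g, hg, hgv⟩
      · exact h2
    have h7 := card_le_card h6
    rw [card_insert_of_notMem] at h7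
    · omega
    · intro h
      exact hr (mem_nb.1 (mem_erase.1 h).2).1
  have e1 : (insert x (dbl R)).card ≤ (nb val R P).card := by
    apply nb_ge hf
    intro y hy
    rcases mem_insert.1 hy with rfl | hy
    · rw [h5 f hf]
      exact hr2
    · exact mem_dbl.1 hy _
  rw [card_insert_of_notMem hx] at e1
  have e2 := two_dbl_lt hr2 hx
  have e3 := G.card
  have e4 : (R \ nb val R P).card + (nb val R P).card = R.card :=
    card_sdiff_add_card_eq_card (filter_subset _ _)
  have hxu : x ∈ unan val P := mem_unan.2 ⟨_, h5⟩
  have e5 : (R \ nb val R P).card ≤ ((unan val P).erase x).card := by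
    apply missing_card hf
    intro y w hyR hy
    rw [mem_erase]
    refine ⟨?_, mem_unan.2 ⟨_, hy⟩⟩
    rintro rfl
    have h6 := hy f hf
    rw [h5 f hf] at h6
    have : w = v := by
      revert h6
      cases w <;> cases v <;> simp
    subst this
    exact hr hyR
  rw [card_erase_of_mem hxu] at e5
  have e6 : 0 < (unan val P).card := card_pos.2 ⟨x, hxu⟩
  have e7 : P.card ≤ A.card := card_le_card hPA
  have e8 : A.card ≤ P.card := by
    by_cases h3 : 3 ≤ (unan val P).card
    · have := unan3 F h3
      omega
    · by_cases h2 : 2 ≤ (unan val P).card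
      · have := unan2 F h2
        omega
      · omega
  have e9 : P = A := eq_of_subset_of_card_le hPA e8
  rw [← e9]
  exact h5

/-- attack on a single pair -/
theorem attack_single (F : Facts val) {A : Finset Fn} {R : Finset (Option (X × Bool))}
    (G : Good val A R) {x : X} {v : Bool} (hr : some (x, v) ∉ R) (hr2 : some (x, !v) ∈ R) :
    (∃ c, c ∉ A ∧ val c x = v ∧ Good val (insert c A) (insert (some (x, v)) R)) ∨
    Good val A (insert (some (x, v)) (R.erase (some (x, !v)))) := by
  have hA := cardA_le F G
  have hx : x ∉ dbl R := fun h => hr (mem_dbl.1 h v)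
  by_cases hsh : Hall val A (insert (some (x, v)) (R.erase (some (x, !v)))) ∧
      1 ≤ (cl val Aᶜ x (!v)).card
  · right
    refine ⟨?_, hsh.1, ?_, ?_⟩
    · rw [card_insert_of_notMem, card_erase_of_mem hr2, G.card]
      · have : 0 < R.card := card_pos.2 ⟨_, hr2⟩
        omega
      · intro h
        exact hr (mem_erase.1 h).2
    · intro y w hy
      by_cases hyw : some (y, w) = some (x, !v)
      · simp only [Option.some.injEq, Prod.mk.injEq] at hyw
        rw [hyw.1, hyw.2]
        exact hsh.2
      · apply G.loc
        intro h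
        exact hy (mem_insert_of_mem (mem_erase.2 ⟨hyw, h⟩))
    · have hd : dbl (insert (some (x, v)) (R.erase (some (x, !v)))) = dbl R := by
        ext y
        by_cases hyx : y = x
        · subst hyx
          constructor
          · intro h
            have := mem_dbl.1 h (!v)
            simp at this
          · intro h
            exact absurd h hx
        · rw [mem_dbl, mem_dbl]
          apply forall_congr'
          intro w
          simp [hyx]
      rw [hd]
      rcases G.dd with h | ⟨h, hN⟩
      · exact Or.inl h
      · right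
        refine ⟨h, ?_⟩
        intro y hy w
        obtain ⟨h1, h2, h3⟩ := hN y hy w
        refine ⟨h1, h2, ?_⟩
        intro h4
        apply h3
        intro w' hw'
        by_cases hyw : some (y, w') = some (x, !v)
        · simp only [Option.some.injEq, Prod.mk.injEq] at hyw
          apply h4 v
          rw [hyw.1]
          exact mem_insert_self _ _
        · exact h4 w' (mem_insert_of_mem (mem_erase.2 ⟨hyw, hw'⟩))
  · left
    have key : 24 ≤ (dbl R).card → (∀ f ∈ A, val f x = !v) ∨ (cl val Aᶜ x (!v)).card = 0 := by
      intro hd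
      by_cases hH : Hall val A (insert (some (x, v)) (R.erase (some (x, !v))))
      · right
        by_contra h
        exact hsh ⟨hH, by omega⟩
      · left
        exact hall_fail F G hr hr2 hd hH
    have hd24 : (dbl R).card ≤ 24 := by
      rcases G.dd with h | ⟨h, hN⟩
      · exact h
      · exfalso
        rcases key (by omega) with h1 | h1
        · obtain ⟨h2, -, -⟩ := hN x hx v
          have : cl val A x v = ∅ := by
            rw [eq_empty_iff_forall_notMem]
            intro f hf
            obtain ⟨hf1, hf2⟩ := mem_cl.1 hf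
            rw [h1 f hf1] at hf2
            simp at hf2
          rw [this] at h2
          simp at h2
        · obtain ⟨-, h2, -⟩ := hN x hx (!v)
          omega
    obtain ⟨c, hcx, hcA, hc⟩ := choose F (S := cl val univ x v) hA (fun y => x ≠ y) (by
      have := G.loc x v hr
      rw [Nat.succ_le_iff, card_pos] at this
      obtain ⟨f, hf⟩ := this
      obtain ⟨hf1, hf2⟩ := mem_cl.1 hf
      exact ⟨f, mem_cl.2 ⟨mem_univ _, hf2⟩, mem_compl.1 hf1⟩) (by
      intro y hy w
      rw [F.h2 x y v w hy]
      norm_num)
    have hcv : val c x = v := (mem_cl.1 hcx).2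
    refine ⟨c, hcA, hcv, ?_, hall_insert G.hall hr hcv, ?_, ?_⟩
    · rw [card_insert_of_notMem hcA, card_insert_of_notMem hr, G.card]
    · intro y w hy
      have h1 : some (y, w) ∉ R := fun h => hy (mem_insert_of_mem h)
      have hxy : x ≠ y := by
        rintro rfl
        apply hy
        by_cases hwv : w = v
        · subst hwv
          exact mem_insert_self _ _
        · rw [bool_ne hwv]
          exact mem_insert_of_mem hr2
      exact (loc_insert (hc y hxy) w (G.loc y w h1)).1
    · have hd : dbl (insert (some (x, v)) R) = insert x (dbl R) := by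
        ext y
        rw [mem_insert]
        by_cases hyx : y = x
        · subst hyx
          simp only [true_or, iff_true]
          rw [mem_dbl]
          intro w
          by_cases hwv : w = v
          · subst hwv
            exact mem_insert_self _ _
          · rw [bool_ne hwv]
            exact mem_insert_of_mem hr2
        · rw [mem_dbl, mem_dbl]
          simp [hyx]
      have hd2 : (dbl (insert (some (x, v)) R)).card = (dbl R).card + 1 := by
        rw [hd, card_insert_of_notMem hx]
      by_cases hlt : (dbl R).card + 1 ≤ 24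
      · left
        omega
      · right
        have hd3 : (dbl R).card = 24 := by omega
        refine ⟨by omega, ?_⟩
        intro y hy w
        have hxy : x ≠ y := by
          rintro rfl
          apply hy
          rw [hd]
          exact mem_insert_self _ _
        have e0 := G.card
        have e1 := two_dbl_lt hr2 hx
        have e2 := cl_split (val := val) A y w
        have e3 := cl_compl F (insert c A) y w
        have e4 := card_insert_of_notMem hcA
        have e5 := cl_split (val := val) (insert c A) y w
        have e6 : (cl val A y w).card ≤ (cl val (insert c A) y w).card :=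
          card_le_card (cl_mono (subset_insert _ _) _ _)
        have e7 : (cl val A y (!w)).card ≤ (cl val (insert c A) y (!w)).card :=
          card_le_card (cl_mono (subset_insert _ _) _ _)
        have e8 := cardR_le F.hX R
        rcases key (by omega) with h1 | h1
        · have f1 : ∀ w', (cl val A y w').card ≤ 32 := by
            intro w'
            rw [← F.h2 x y (!v) w' hxy]
            apply card_le_card
            intro f hf
            obtain ⟨hf1, hf2⟩ := mem_cl.1 hf
            exact mem_cl.2 ⟨mem_cl.2 ⟨mem_univ _, h1 f hf1⟩, hf2⟩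
          have f2 := f1 w
          have f3 := f1 (!w)
          refine ⟨by omega, by omega, fun _ => by omega⟩
        · have f1 : ∀ w', 32 ≤ (cl val A y w').card := by
            intro w'
            rw [← F.h2 x y (!v) w' hxy]
            apply card_le_card
            intro f hf
            obtain ⟨hf1, hf2⟩ := mem_cl.1 hf
            refine mem_cl.2 ⟨?_, hf2⟩
            by_contra hfA
            have : f ∈ cl val Aᶜ x (!v) := mem_cl.2 ⟨mem_compl.2 hfA, (mem_cl.1 hf1).2⟩
            rw [card_eq_zero.1 h1] at this
            simp at this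
          have f2 := f1 w
          have f3 := f1 (!w)
          refine ⟨by omega, by omega, fun _ => by omega⟩

end attackpt

end Pool.Agent.W160.Etern
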