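/-
The counting facts for the 128 affine functions on the 64 points of F_2^6
(for the positive answer to MP_6cb088_co).
-/
import Pool.Agent.W160.EternGame

set_option autoImplicit false
set_option linter.constructorNameAsVariable false

namespace Pool.Agent.W160.Etern

open Finset Matrix

abbrev Pt := Fin 6 → ZMod 2
abbrev Af := Pt × ZMod 2

/-- value of the affine function `f` at the point `x` -/
def ev (f : Af) (x : Pt) : Bool := decide (f.1 ⬝ᵥ x + f.2 = 1)

def sh (w : Pt) (k : ZMod 2) (f : Af) : Af := (f.1 + w, f.2 + k)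

lemma sh_sh (w : Pt) (k : ZMod 2) (f : Af) : sh w k (sh w k f) = f := by
  unfold sh
  ext
  · simp [add_assoc, CharTwo.add_self_eq_zero]
  · simp [add_assoc, CharTwo.add_self_eq_zero]

lemma ev_same {w : Pt} {k : ZMod 2} {y : Pt} (h : w ⬝ᵥ y + k = 0) (f : Af) :
    ev (sh w k f) y = ev f y := by
  unfold ev sh
  simp only [add_dotProduct]
  have : f.1 ⬝ᵥ y + w ⬝ᵥ y + (f.2 + k) = f.1 ⬝ᵥ y + f.2 := by linear_combination h
  rw [this]

lemma ev_flip {w : Pt} {k : ZMod 2} {y : Pt} (h : w ⬝ᵥ y + k = 1) (f : Af) :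
    ev (sh w k f) y = ! ev f y := by
  unfold ev sh
  simp only [add_dotProduct]
  have : f.1 ⬝ᵥ y + w ⬝ᵥ y + (f.2 + k) = f.1 ⬝ᵥ y + f.2 + 1 := by linear_combination h
  rw [this]
  generalize f.1 ⬝ᵥ y + f.2 = t
  revert t
  decide

lemma zmod2_cases (a : ZMod 2) : a = 0 ∨ a = 1 := by
  revert a
  decide

lemma exists_sep1 {p : Pt} (hp : p ≠ 0) : ∃ w : Pt, w ⬝ᵥ p = 1 := by
  obtain ⟨i, hi⟩ := Function.ne_iff.1 hp
  refine ⟨Pi.single i 1, ?_⟩
  rw [single_one_dotProduct]
  rcases zmod2_cases (p i) with h | h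
  · exact absurd h hi
  · exact h

lemma exists_sep2 {p q : Pt} (hq : q ≠ 0) (hpq : p ≠ q) :
    ∃ w : Pt, w ⬝ᵥ p = 0 ∧ w ⬝ᵥ q = 1 := by
  by_cases h : ∃ i, q i = 1 ∧ p i = 0
  · obtain ⟨i, hi1, hi2⟩ := h
    exact ⟨Pi.single i 1, by rw [single_one_dotProduct, hi2], by rw [single_one_dotProduct, hi1]⟩
  · push Not at h
    have h' : ∀ i, q i = 1 → p i = 1 := fun i hi => (zmod2_cases (p i)).resolve_left (h i hi)
    obtain ⟨i, hi⟩ := Function.ne_iff.1 hq
    have hi1 : q i = 1 := (zmod2_cases (q i)).resolve_left hi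
    obtain ⟨j, hj⟩ := Function.ne_iff.1 hpq
    have hj1 : q j = 0 ∧ p j = 1 := by
      rcases zmod2_cases (q j) with h1 | h1
      · rcases zmod2_cases (p j) with h2 | h2
        · exact absurd (h2.trans h1.symm) hj
        · exact ⟨h1, h2⟩
      · exact absurd ((h' j h1).trans h1.symm) hj
    refine ⟨Pi.single i 1 + Pi.single j 1, ?_, ?_⟩
    · rw [add_dotProduct, single_one_dotProduct, single_one_dotProduct, h' i hi1, hj1.2]
      decide
    · rw [add_dotProduct, single_one_dotProduct, single_one_dotProduct, hi1, hj1.1]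
      decide

lemma add_ne_zero2 {x y : Pt} (h : x ≠ y) : y + x ≠ 0 := by
  intro h2
  apply h
  ext i
  have := congrFun h2 i
  simp only [Pi.add_apply, Pi.zero_apply] at this
  revert this
  generalize x i = a
  generalize y i = b
  revert a b
  decide

lemma card_Af : Fintype.card Af = 128 := by
  rw [Fintype.card_prod, Fintype.card_fun]
  simp [ZMod.card]

lemma cl_univ_card (x : Pt) (v : Bool) : (cl ev univ x v).card = 64 := by
  have h2 : (0 : Pt) ⬝ᵥ x + 1 = 1 := by
    rw [zero_dotProduct, zero_add]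
  have h3 := half_univ x (sh 0 1) (sh_sh 0 1) (ev_flip h2) v
  rw [card_Af] at h3
  omega

theorem facts : Facts ev where
  hX := by
    rw [Fintype.card_fun]
    simp [ZMod.card]
  h1 := cl_univ_card
  h2 := by
    intro x y v w hxy
    obtain ⟨t, ht⟩ := exists_sep1 (add_ne_zero2 hxy)
    have h1 := cl_univ_card x v
    rw [dotProduct_add] at ht
    have h2 := half_gen (cl ev univ x v) y (sh t (t ⬝ᵥ x)) (sh_sh _ _) (by
      intro f hf
      rw [mem_clu] at hf ⊢
      rw [ev_same (CharTwo.add_self_eq_zero _), hf]) (ev_flip ht) w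
    omega
  h3 := by
    intro x y z u v w hxy hxz hyz
    obtain ⟨s, hs⟩ := exists_sep1 (add_ne_zero2 hxy)
    rw [dotProduct_add] at hs
    have h1 := cl_univ_card x u
    have h2 := half_gen (cl ev univ x u) y (sh s (s ⬝ᵥ x)) (sh_sh _ _) (by
      intro f hf
      rw [mem_clu] at hf ⊢
      rw [ev_same (CharTwo.add_self_eq_zero _), hf]) (ev_flip hs) v
    have hne : y + x ≠ z + x := fun h => hyz (add_right_cancel h)
    obtain ⟨t, ht1, ht2⟩ := exists_sep2 (add_ne_zero2 hxz) hne
    rw [dotProduct_add] at ht1 ht2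
    have h3 := half_gen (cl ev (cl ev univ x u) y v) z (sh t (t ⬝ᵥ x)) (sh_sh _ _) (by
      intro f hf
      rw [mem_cl, mem_clu] at hf ⊢
      exact ⟨by rw [ev_same (CharTwo.add_self_eq_zero _), hf.1], by rw [ev_same ht1, hf.2]⟩)
      (ev_flip ht2) w
    omega

end Pool.Agent.W160.Etern
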