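/-
The graph of the guard game (for the positive answer to MP_6cb088_co).
-/
import Pool.Agent.W160.EternCount

set_option autoImplicit false
set_option linter.unusedSectionVars false
set_option linter.constructorNameAsVariable false

namespace Pool.Agent.W160.Etern

open Finset

/-- closed families of guard sets -/
def Closed {V : Type} [DecidableEq V] (G : SimpleGraph V) (k : ℕ) (𝓕 : Set (Finset V)) : Prop :=
  ∀ D ∈ 𝓕, D.card = k ∧ ∀ v : V, ∃ u ∈ D, (u = v ∨ G.Adj u v) ∧ insert v (D.erase u) ∈ 𝓕

/-- an eternal dominating set has at least `α(G)` members -/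
theorem indep_le {V : Type} [DecidableEq V] (G : SimpleGraph V) {k : ℕ}
    {𝓕 : Set (Finset V)} (hne : 𝓕.Nonempty) (h : Closed G k 𝓕) {I : Finset V}
    (hI : G.IsIndepSet (I : Set V)) : I.card ≤ k := by
  have key : ∀ J : Finset V, J ⊆ I → ∃ D ∈ 𝓕, J ⊆ D := by
    intro J
    induction J using Finset.induction_on with
    | empty =>
      intro _
      obtain ⟨D, hD⟩ := hne
      exact ⟨D, hD, by simp⟩
    | insert a J haJ ih =>
      intro hJ
      obtain ⟨D, hD, hJD⟩ := ih (fun x hx => hJ (mem_insert_of_mem hx))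
      obtain ⟨u, hu, huv, hF⟩ := (h D hD).2 a
      refine ⟨_, hF, ?_⟩
      intro x hx
      rcases mem_insert.1 hx with rfl | hx
      · exact mem_insert_self _ _
      · refine mem_insert_of_mem (mem_erase.2 ⟨?_, hJD hx⟩)
        rintro rfl
        rcases huv with h1 | h1
        · exact haJ (h1 ▸ hx)
        · exact hI (hJ (mem_insert_of_mem hx)) (hJ (mem_insert_self _ _)) h1.ne h1
  obtain ⟨D, hD, hID⟩ := key I (Subset.refl _)
  rw [← (h D hD).1]
  exact card_le_card hID

/-- a triangle-free graph with more than `2k` vertices is not covered by `k` cliques -/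
theorem lt_chi {V : Type} [Fintype V] (G : SimpleGraph V) (hG : G.CliqueFree 3)
    {k : ℕ} (hk : 2 * k < Fintype.card V) : (k : ℕ∞) < Gᶜ.chromaticNumber := by
  classical
  by_contra hle
  rw [not_lt] at hle
  have hc : Gᶜ.Colorable k := SimpleGraph.chromaticNumber_le_iff_colorable.1 hle
  obtain ⟨C⟩ := hc
  obtain ⟨i, -, hi⟩ := exists_lt_card_fiber_of_mul_lt_card_of_maps_to (s := (univ : Finset V))
    (t := (univ : Finset (Fin k))) (f := fun v => C v) (n := 2) (fun _ _ => mem_univ _)
    (by simp only [card_univ, Fintype.card_fin]; omega)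
  obtain ⟨a, ha, b, hb, c, hc, hab, hac, hbc⟩ := two_lt_card.1 hi
  simp only [mem_filter, mem_univ, true_and] at ha hb hc
  have adj : ∀ x y : V, C x = i → C y = i → x ≠ y → G.Adj x y := by
    intro x y hx hy hxy
    by_contra hn
    have : Gᶜ.Adj x y := by
      rw [SimpleGraph.compl_adj]
      exact ⟨hxy, hn⟩
    exact C.valid this (hx.trans hy.symm)
  apply hG {a, b, c}
  rw [SimpleGraph.is3Clique_triple_iff]
  exact ⟨adj a b ha hb hab, adj a c ha hc hac, adj b c hb hc hbc⟩

variable {X Fn : Type} [Fintype X] [DecidableEq X] [Fintype Fn] [DecidableEq Fn]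

/-- adjacency of the second side -/
def PAdj : Option (X × Bool) → Option (X × Bool) → Prop
  | some a, some b => a.1 = b.1 ∧ a.2 ≠ b.2
  | _, _ => False

lemma padj_symm : ∀ r s : Option (X × Bool), PAdj r s → PAdj s r
  | some _, some _ => fun h => ⟨h.1.symm, h.2.symm⟩
  | none, none => fun h => h
  | none, some _ => fun h => h
  | some _, none => fun h => h

/-- the graph -/
def Gr (val : Fn → X → Bool) : SimpleGraph (Fn ⊕ Option (X × Bool)) where
  Adj p q := match p, q with
    | Sum.inl _, Sum.inl _ => False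
    | Sum.inl f, Sum.inr r => Adj val f r
    | Sum.inr r, Sum.inl f => Adj val f r
    | Sum.inr r, Sum.inr s => PAdj r s
  symm := ⟨by
    rintro (f | r) (g | s) h
    · exact h
    · exact h
    · exact h
    · exact padj_symm _ _ h⟩
  loopless := ⟨by
    rintro (f | (_ | r)) h
    · exact h
    · exact h
    · exact h.2 rfl⟩

variable {val : Fn → X → Bool}

lemma gr_ll (f g : Fn) : ¬ (Gr val).Adj (Sum.inl f) (Sum.inl g) := fun h => h
lemma gr_lr (f : Fn) (r : Option (X × Bool)) :
    (Gr val).Adj (Sum.inl f) (Sum.inr r) ↔ Adj val f r := Iff.rfl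
lemma gr_rl (f : Fn) (r : Option (X × Bool)) :
    (Gr val).Adj (Sum.inr r) (Sum.inl f) ↔ Adj val f r := Iff.rfl
lemma gr_rr (r s : Option (X × Bool)) :
    (Gr val).Adj (Sum.inr r) (Sum.inr s) ↔ PAdj r s := Iff.rfl

lemma padj_some {r s : Option (X × Bool)} (h : PAdj r s) :
    ∃ x v, r = some (x, v) ∧ s = some (x, !v) := by
  rcases r with _ | ⟨x, v⟩
  · exact h.elim
  · rcases s with _ | ⟨y, w⟩
    · exact h.elim
    · obtain ⟨h1, h2⟩ := h
      simp only at h1 h2
      subst h1
      refine ⟨x, v, rfl, ?_⟩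
      rw [bool_ne h2.symm]

lemma no_tri_frr {f : Fn} {r s : Option (X × Bool)} (h1 : Adj val f r) (h2 : Adj val f s)
    (h3 : PAdj r s) : False := by
  obtain ⟨x, v, rfl, rfl⟩ := padj_some h3
  rw [adj_some] at h1 h2
  rw [h1] at h2
  simp at h2

lemma no_tri_rrr {r s t : Option (X × Bool)} (h1 : PAdj r s) (h2 : PAdj r t)
    (h3 : PAdj s t) : False := by
  obtain ⟨x, v, rfl, rfl⟩ := padj_some h1
  obtain ⟨y, w, hy, rfl⟩ := padj_some h2
  simp only [Option.some.injEq, Prod.mk.injEq] at hy
  obtain ⟨z, u, hz, hz2⟩ := padj_some h3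
  simp only [Option.some.injEq, Prod.mk.injEq] at hz hz2
  obtain ⟨_, rfl⟩ := hy
  obtain ⟨_, hz⟩ := hz
  obtain ⟨_, hz2⟩ := hz2
  rw [← hz] at hz2
  simp at hz2

theorem gr_cliqueFree : (Gr val).CliqueFree 3 := by
  classical
  intro s hs
  rw [SimpleGraph.is3Clique_iff] at hs
  obtain ⟨a, b, c, hab, hac, hbc, -⟩ := hs
  rcases a with f | r <;> rcases b with g | s <;> rcases c with h | t
  · exact hab
  · exact hab
  · exact hac
  · exact no_tri_frr hab hac hbc
  · exact hbc
  · exact no_tri_frr hab hbc hac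
  · exact no_tri_frr hac hbc hab
  · exact no_tri_rrr hab hac hbc

/-- the guard set of a state -/
def conf (A : Finset Fn) (R : Finset (Option (X × Bool))) : Finset (Fn ⊕ Option (X × Bool)) :=
  Aᶜ.disjSum R

lemma conf_card (A : Finset Fn) (R : Finset (Option (X × Bool))) (h : A.card = R.card) :
    (conf A R).card = Fintype.card Fn := by
  unfold conf
  rw [card_disjSum, card_compl, ← h]
  have := card_le_univ A
  omega

lemma conf_recruit (A : Finset Fn) (R : Finset (Option (X × Bool))) (c : Fn)
    (r : Option (X × Bool)) :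
    insert (Sum.inr r) ((conf A R).erase (Sum.inl c)) = conf (insert c A) (insert r R) := by
  unfold conf
  ext (f | s)
  · simp
  · simp

lemma conf_return (A : Finset Fn) (R : Finset (Option (X × Bool))) (a : Fn)
    (b : Option (X × Bool)) :
    insert (Sum.inl a) ((conf A R).erase (Sum.inr b)) = conf (A.erase a) (R.erase b) := by
  unfold conf
  ext (f | s)
  · simp only [mem_insert, Sum.inl.injEq, mem_erase, ne_eq, reduceCtorEq, not_false_eq_true,
      inl_mem_disjSum, mem_compl, true_and, not_and]
    tauto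
  · simp

lemma conf_shift (A : Finset Fn) (R : Finset (Option (X × Bool))) (r s : Option (X × Bool)) :
    insert (Sum.inr r) ((conf A R).erase (Sum.inr s)) = conf A (insert r (R.erase s)) := by
  unfold conf
  ext (f | t)
  · simp
  · simp

/-- the closed family -/
def fam (val : Fn → X → Bool) : Set (Finset (Fn ⊕ Option (X × Bool))) :=
  {D | ∃ A R, Good val A R ∧ D = conf A R}

lemma fam_nonempty (F : Facts val) : (fam val).Nonempty := by
  refine ⟨_, ∅, ∅, ⟨?_, ?_, ?_, ?_⟩, rfl⟩
  · simp
  · intro P hP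
    rw [subset_empty.1 hP]
    simp
  · intro x v _
    have := cl_compl F ∅ x v
    have h2 : cl val ∅ x v = ∅ := by simp [cl]
    rw [h2] at this
    simp only [card_empty] at this
    omega
  · left
    have : dbl (∅ : Finset (Option (X × Bool))) = ∅ := by
      ext x
      simp [mem_dbl]
    rw [this]
    simp

lemma fam_closed (F : Facts val) : Closed (Gr val) (Fintype.card Fn) (fam val) := by
  rintro D ⟨A, R, G, rfl⟩
  refine ⟨conf_card A R G.card, ?_⟩
  rintro (a | r)
  · by_cases ha : a ∈ A
    · obtain ⟨b, hb, hab, G'⟩ := attack_fn F G ha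
      refine ⟨Sum.inr b, by simp [conf, hb], Or.inr hab, ?_⟩
      exact ⟨_, _, G', conf_return A R a b⟩
    · have hm : Sum.inl a ∈ conf A R := by simp [conf, ha]
      refine ⟨Sum.inl a, hm, Or.inl rfl, ?_⟩
      rw [insert_erase hm]
      exact ⟨_, _, G, rfl⟩
  · by_cases hr : r ∈ R
    · have hm : Sum.inr r ∈ conf A R := by simp [conf, hr]
      refine ⟨Sum.inr r, hm, Or.inl rfl, ?_⟩
      rw [insert_erase hm]
      exact ⟨_, _, G, rfl⟩
    · have recruit : ∀ c, c ∉ A → Adj val c r → Good val (insert c A) (insert r R) →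
          ∃ u ∈ conf A R, (u = Sum.inr r ∨ (Gr val).Adj u (Sum.inr r)) ∧
            insert (Sum.inr r) ((conf A R).erase u) ∈ fam val := by
        intro c hcA hcr G'
        refine ⟨Sum.inl c, by simp [conf, hcA], Or.inr hcr, ?_⟩
        exact ⟨_, _, G', conf_recruit A R c r⟩
      rcases r with _ | ⟨x, v⟩
      · obtain ⟨c, hcA, G'⟩ := attack_none F G hr
        exact recruit c hcA trivial G'
      · by_cases hr2 : some (x, !v) ∈ R
        · rcases attack_single F G hr hr2 with ⟨c, hcA, hcv, G'⟩ | G'
          · exact recruit c hcA hcv G'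
          · refine ⟨Sum.inr (some (x, !v)), by simp [conf, hr2], Or.inr ?_, ?_⟩
            · rw [gr_rr]
              exact ⟨rfl, by simp⟩
            · exact ⟨_, _, G', conf_shift A R _ _⟩
        · obtain ⟨c, hcA, hcv, G'⟩ := attack_empty F G hr hr2
          exact recruit c hcA hcv G'

lemma fn_indep : (Gr val).IsIndepSet
    (((univ : Finset Fn).map Function.Embedding.inl : Finset (Fn ⊕ Option (X × Bool))) : Set _) := by
  intro a ha b hb _ h
  simp only [coe_map, Set.mem_image, coe_univ, Set.mem_univ, true_and] at ha hb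
  obtain ⟨f, rfl⟩ := ha
  obtain ⟨g, rfl⟩ := hb
  exact h

theorem indepNum_eq (F : Facts val) : (Gr val).indepNum = Fintype.card Fn := by
  apply le_antisymm
  · obtain ⟨I, hI⟩ := (Gr val).exists_isNIndepSet_indepNum
    rw [← hI.card_eq]
    exact indep_le _ (fam_nonempty F) (fam_closed F) hI.isIndepSet
  · have := (fn_indep (val := val)).card_le_indepNum
    rwa [card_map, card_univ] at this

theorem card_V (hX : Fintype.card X = 64) (h : Fintype.card Fn = 128) :
    Fintype.card (Fn ⊕ Option (X × Bool)) = 257 := by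
  rw [Fintype.card_sum, Fintype.card_option, Fintype.card_prod, Fintype.card_bool, hX, h]

end Pool.Agent.W160.Etern
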